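import Pool.Agent.helper12.OB.SpecA

/-!
Row LDW of OB: weights modulo `M`.
-/

set_option autoImplicit false

namespace Pool.Agent.OB

open Pool.Agent.helper58.DC Pool.Agent.DI Pool.Agent.GR

theorem LDW (hODV : ODV_stmt) (hWCD : WCD_stmt) (hWCJ : WCJ_stmt) : LDW_stmt := by
  intro p M hS G X _ _ _ act gen hgen hfix θ hθ hinv
  haveI : Fact p.Prime := ⟨hS.pr⟩
  let I : AddSubgroup ℂ :=
    { carrier := {w | InM M w}
      zero_mem' := InM.zero hS
      add_mem' := fun {a b} ha hb => InM.add hS ha hb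
      neg_mem' := fun {a} ha => InM.neg ha }
  obtain ⟨w, hw, hsum⟩ := hODV p hS.pr G X act I (fun x => θ x * (W p (gen x) : ℂ))
    (fun g x => by
      show θ (act g x) * (W p (gen (act g x)) : ℂ) = θ x * (W p (gen x) : ℂ)
      rw [hinv, hgen, (hWCJ G p).1])
    (fun x => by
      obtain ⟨k, hk⟩ := hWCD G p (gen x)
      have hcard : pp p {n : G // act n x = x} = pp p (cz (gen x)) := by
        unfold pp
        rw [Nat.card_congr (Equiv.subtypeEquivRight fun g => hfix g x)]
      refine ⟨θ x * (k : ℂ), InM.mul_right hS (hθ x) (IntAt.of_isIntegral hS ?_), ?_⟩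
      · have := isIntegral_algebraMap (R := ℤ) (A := ℂ) (x := k)
        simpa using this
      · show θ x * (W p (gen x) : ℂ) = (pp p {n : G // act n x = x} : ℂ) * (θ x * (k : ℂ))
        rw [hcard, hk]
        push_cast
        ring)
  exact ⟨w, hw, by rw [sub_zero]; exact hsum⟩

end Pool.Agent.OB
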